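import Mathlib
import Pool.Agent.H117R2.Dom

set_option autoImplicit false

/-!
# From an element frequent outside the meet-irreducible members to an abundant element
-/

namespace Pool.Agent.H634R3.UC

open Finset Pool.Agent.H117R2

/-- If every subfamily `N` with `card N = card A - n` has an element of frequency at least
`β * card N` in `N`, some element lies in at least `n - 1 + β * (m - n)` members of `A`. -/
theorem assemble {β : ℝ} (hβ : β ≤ 1) (A : Finset (Finset ℕ))
    (huc : ∀ X ∈ A, ∀ Y ∈ A, X ∪ Y ∈ A) (hn : 1 ≤ (types A).card)
    (H : ∀ N ⊆ A, N.card + (types A).card = A.card → ∃ i ∈ A.sup id,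
      β * (N.card : ℝ) ≤ ((N.filter (fun X => i ∈ X)).card : ℝ)) :
    ∃ i : ℕ, ((types A).card : ℝ) - 1 + β * ((A.card : ℝ) - (types A).card) ≤
      ((A.filter (fun X => i ∈ X)).card : ℝ) := by
  by_cases hall : ∀ x ∈ A.sup id, ∃ S ∈ A, x ∉ S
  swap
  · push Not at hall
    obtain ⟨x, hx, hxA⟩ := hall
    refine ⟨x, ?_⟩
    rw [filter_true_of_mem hxA]
    have hle : (types A).card ≤ A.card := by
      have h0 : (types A).card ≤ (A.sup id).card := by
        unfold types; exact card_image_le
      -- the map from types to members
      classical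
      have hinj : (types A).card ≤ (insert (∅ : Finset ℕ) (A.image id)).card := by
        have hmap : ∀ C ∈ types A, (A \ C).sup id ∈ insert (∅ : Finset ℕ) (A.image id) := by
          intro C hC
          rw [mem_insert, image_id]
          by_cases hne : (A \ C).Nonempty
          · exact Or.inr (sup_mem_uc A huc _ sdiff_subset hne)
          · left
            rw [not_nonempty_iff_eq_empty.mp hne]
            rfl
        apply card_le_card_of_injOn (fun C => (A \ C).sup id) hmap
        intro C hC C' hC' h
        rw [mem_coe, types, mem_image] at hC hC'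
        obtain ⟨x, hx, rfl⟩ := hC
        obtain ⟨y, hy, rfl⟩ := hC'
        apply Mx_eq_iff
        have e : ∀ x, (A \ A.filter (fun S => x ∈ S)) = A.filter (fun S => x ∉ S) := by
          intro x
          ext S
          simp only [mem_filter, mem_sdiff]
          tauto
        simp only [e] at h
        exact h
      by_contra hcon
      push Not at hcon
      have h1 : (insert (∅ : Finset ℕ) (A.image id)).card ≤ A.card + 1 := by
        rw [image_id]; exact card_insert_le _ _
      have h2 : (types A).card = A.card + 1 := by omega
      have h3 : (insert (∅ : Finset ℕ) (A.image id)).card = A.card + 1 := by omega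
      -- then the map is onto, so the top member is avoided by some element of it
      have hA : A.Nonempty := by
        rw [nonempty_iff_ne_empty]
        rintro rfl
        simp at hx
      have htop : A.sup id ∈ A := sup_mem_uc A huc A Subset.rfl hA
      have hmap : ∀ C ∈ types A, (A \ C).sup id ∈ (insert (∅ : Finset ℕ) (A.image id)).erase (A.sup id) := by
        intro C hC
        rw [mem_erase]
        constructor
        · intro heq
          rw [types, mem_image] at hC
          obtain ⟨z, hz, rfl⟩ := hC
          have e : (A \ A.filter (fun S => z ∈ S)) = A.filter (fun S => z ∉ S) := by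
            ext S
            simp only [mem_filter, mem_sdiff]
            tauto
          rw [e] at heq
          have := notMem_Mx A z
          unfold Mx at this
          rw [heq] at this
          exact this hz
        · rw [mem_insert, image_id]
          by_cases hne : (A \ C).Nonempty
          · exact Or.inr (sup_mem_uc A huc _ sdiff_subset hne)
          · left
            rw [not_nonempty_iff_eq_empty.mp hne]
            rfl
      have h4 : (types A).card ≤ ((insert (∅ : Finset ℕ) (A.image id)).erase (A.sup id)).card := by
        apply card_le_card_of_injOn (fun C => (A \ C).sup id) hmap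
        intro C hC C' hC' h
        rw [mem_coe, types, mem_image] at hC hC'
        obtain ⟨x, hx, rfl⟩ := hC
        obtain ⟨y, hy, rfl⟩ := hC'
        apply Mx_eq_iff
        have e : ∀ x, (A \ A.filter (fun S => x ∈ S)) = A.filter (fun S => x ∉ S) := by
          intro x
          ext S
          simp only [mem_filter, mem_sdiff]
          tauto
        simp only [e] at h
        exact h
      have h5 : ((insert (∅ : Finset ℕ) (A.image id)).erase (A.sup id)).card =
          (insert (∅ : Finset ℕ) (A.image id)).card - 1 := by
        apply card_erase_of_mem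
        rw [mem_insert, image_id]
        exact Or.inr htop
      omega
    have hle' : ((types A).card : ℝ) ≤ A.card := by exact_mod_cast hle
    have h2 : β * ((A.card : ℝ) - (types A).card) ≤ 1 * ((A.card : ℝ) - (types A).card) :=
      mul_le_mul_of_nonneg_right hβ (by linarith)
    linarith
  obtain ⟨N, hNA, hNcard, hdom⟩ := dom A huc hall
  have hNr : (N.card : ℝ) = (A.card : ℝ) - (types A).card := by
    rw [eq_sub_iff_add_eq]
    exact_mod_cast hNcard
  obtain ⟨i, hi, h⟩ := H N hNA hNcard
  obtain ⟨y, h1, h2⟩ := hdom i hi
  refine ⟨y, ?_⟩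
  have h1' : ((N.filter (fun X => i ∈ X)).card : ℝ) ≤ ((N.filter (fun X => y ∈ X)).card : ℝ) := by
    exact_mod_cast h1
  have h2' : ((types A).card : ℝ) + ((N.filter (fun X => y ∈ X)).card : ℝ) ≤
      ((A.filter (fun X => y ∈ X)).card : ℝ) + 1 := by exact_mod_cast h2
  rw [← hNr]
  linarith

/-- (Falgas-Ravry) families with `m ≤ 2 n`. -/
theorem small (A : Finset (Finset ℕ)) (huc : ∀ X ∈ A, ∀ Y ∈ A, X ∪ Y ∈ A)
    (hn : 1 ≤ (types A).card) (hmn : A.card ≤ 2 * (types A).card) :
    ∃ i : ℕ, A.card ≤ 2 * (A.filter (fun X => i ∈ X)).card := by
  obtain ⟨x0, hx0⟩ : ∃ x0, x0 ∈ A.sup id := by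
    have : (types A).Nonempty := card_pos.mp (by omega)
    unfold types at this
    rw [image_nonempty] at this
    exact this
  by_cases hall : ∀ x ∈ A.sup id, ∃ S ∈ A, x ∉ S
  swap
  · push Not at hall
    obtain ⟨x, hx, hxA⟩ := hall
    refine ⟨x, ?_⟩
    rw [filter_true_of_mem hxA]
    omega
  have hA : A.Nonempty := by
    rw [nonempty_iff_ne_empty]
    rintro rfl
    simp at hx0
  obtain ⟨N, hNA, hNcard, htop, hdom⟩ := dom' A huc hall
  obtain ⟨y, h1, h2⟩ := hdom x0 hx0
  have h3 : 0 < (N.filter (fun X => x0 ∈ X)).card :=
    card_pos.mpr ⟨A.sup id, mem_filter.mpr ⟨htop hA, hx0⟩⟩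
  exact ⟨y, by omega⟩

end Pool.Agent.H634R3.UC
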