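import Mathlib
import Pool.Agent.H634R3.UC.Asm
import Pool.Agent.H117R2.VC2
import Pool.Agent.H117R2.Golden2

set_option autoImplicit false

/-!
# The golden ratio bound for subfamilies
-/

namespace Pool.Agent.H634R3.UC

open Finset Real Pool.Agent.H117R2 Pool.Agent.H117R2.Gold

theorem q_mul : q * (1 - (3 - √5) / 2) = 1 := by
  have h : √5 ^ 2 = 5 := sq_sqrt (by norm_num)
  unfold q
  nlinarith

theorem q_mul' : q * ((√5 - 1) / 2) = 1 := by
  have h : √5 ^ 2 = 5 := sq_sqrt (by norm_num)
  unfold q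
  nlinarith

/-- with explicit error term -/
theorem gold (A : Finset (Finset ℕ)) (huc : ∀ X ∈ A, ∀ Y ∈ A, X ∪ Y ∈ A)
    (hn : 1 ≤ (types A).card) (hmn : (types A).card + 2 ≤ A.card) :
    ∃ i : ℕ, ((types A).card : ℝ) - 1 +
      ((3 - √5) / 2 - (√5 - 1) / 2 * (log ((A.card : ℝ) / ((A.card : ℝ) - (types A).card)) /
        log ((A.card : ℝ) - (types A).card))) *
      ((A.card : ℝ) - (types A).card) ≤ ((A.filter (fun X => i ∈ X)).card : ℝ) := by
  have hmn' : ((types A).card : ℝ) + 2 ≤ A.card := by exact_mod_cast hmn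
  have hdiff : (2 : ℝ) ≤ (A.card : ℝ) - (types A).card := by linarith
  have hL : 0 < log ((A.card : ℝ) - (types A).card) := log_pos (by linarith)
  have h5 : (2 : ℝ) ≤ √5 := by
    rw [show (2 : ℝ) = √4 by rw [show (4 : ℝ) = 2 ^ 2 by norm_num, sqrt_sq (by norm_num)]]
    exact sqrt_le_sqrt (by norm_num)
  have hratio : 0 ≤ log ((A.card : ℝ) / ((A.card : ℝ) - (types A).card)) := by
    apply log_nonneg
    rw [le_div_iff₀ (by linarith)]
    have : (0 : ℝ) ≤ (types A).card := by positivity
    linarith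
  have he : 0 ≤ (√5 - 1) / 2 * (log ((A.card : ℝ) / ((A.card : ℝ) - (types A).card)) /
        log ((A.card : ℝ) - (types A).card)) := by
    apply mul_nonneg (by linarith)
    exact div_nonneg hratio hL.le
  apply assemble (by linarith) A huc hn
  intro N hNA hNcard
  have hNr : (N.card : ℝ) = (A.card : ℝ) - (types A).card := by
    rw [eq_sub_iff_add_eq]
    exact_mod_cast hNcard
  rw [← hNr] at hdiff hL he hratio ⊢
  obtain ⟨x0, hx0⟩ : (A.sup id).Nonempty := by
    have : (types A).Nonempty := card_pos.mp (by omega)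
    unfold types at this
    rw [image_nonempty] at this
    exact this
  obtain ⟨i0, hi0, hmax⟩ := exists_max_image (A.sup id)
    (fun i => (N.filter (fun X => i ∈ X)).card) ⟨x0, hx0⟩
  refine ⟨i0, hi0, ?_⟩
  by_contra hcon
  push Not at hcon
  have hm : (0 : ℝ) < N.card := by linarith
  obtain ⟨β', hβ'⟩ : ∃ β' : ℝ, β' = ((N.filter (fun X => i0 ∈ X)).card : ℝ) / N.card := ⟨_, rfl⟩
  have hβ1 : β' * N.card = ((N.filter (fun X => i0 ∈ X)).card : ℝ) := by
    rw [hβ', div_mul_cancel₀ _ hm.ne']
  rw [← hβ1] at hcon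
  have hβ2 := lt_of_mul_lt_mul_right hcon hm.le
  have h1 := ent_sub (twoPointGold (fun _ _ => 0)) (by have := q_lb; linarith) (β := β') A N hNA huc
    (fun i hi => by
      rw [hβ1]
      exact_mod_cast hmax i hi)
  have hA0 : (0 : ℝ) < A.card := by
    have : (0 : ℝ) ≤ (types A).card := by positivity
    linarith
  set L := log (N.card : ℝ) with hLdef
  have e0 : log ((A.card : ℝ) / N.card) = log A.card - L := log_div hA0.ne' hm.ne'
  rw [e0] at hβ2
  rw [zero_mul, sub_zero] at h1
  have h2 : (N.card : ℝ) ^ 2 * (q * (1 - β') * L) ≤ (N.card : ℝ) ^ 2 * log A.card := by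
    calc _ = 2 * (q / 2) * (1 - β') * ((N.card : ℝ) ^ 2 * L) := by ring
      _ ≤ _ := h1
  have h6 := le_of_mul_le_mul_left h2 (by positivity)
  have hq : 0 < q := by have := q_lb; linarith
  have h7 : q * (1 - ((3 - √5) / 2 - (√5 - 1) / 2 * ((log A.card - L) / L))) * L <
      q * (1 - β') * L := by
    apply mul_lt_mul_of_pos_right _ hL
    apply mul_lt_mul_of_pos_left _ hq
    linarith
  have h8 : q * (1 - ((3 - √5) / 2 - (√5 - 1) / 2 * ((log A.card - L) / L))) * L =
      log A.card := by
    have e1 : q * (1 - ((3 - √5) / 2 - (√5 - 1) / 2 * ((log A.card - L) / L))) =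
        q * (1 - (3 - √5) / 2) + q * ((√5 - 1) / 2) * ((log A.card - L) / L) := by ring
    rw [e1, q_mul, q_mul']
    field_simp
    ring
  rw [h8] at h7
  linarith

theorem sqrt5_ub : √5 < 22361 / 10000 := by
  rw [sqrt_lt' (by norm_num)]
  norm_num

theorem sqrt5_lb : 22360 / 10000 < √5 := by
  apply lt_sqrt_of_sq_lt
  norm_num

theorem log_tangent {x a : ℝ} (hx : 0 < x) (ha : 0 < a) : log x ≤ log a + (x / a - 1) := by
  have h := log_le_sub_one_of_pos (show 0 < x / a by positivity)
  rw [log_div hx.ne' ha.ne'] at h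
  linarith

/-- families with at most `10 n / 3` members -/
theorem tenThirds (A : Finset (Finset ℕ)) (huc : ∀ X ∈ A, ∀ Y ∈ A, X ∪ Y ∈ A)
    (hn : 16 ≤ (types A).card) (hmn : 3 * A.card ≤ 10 * (types A).card) :
    ∃ i : ℕ, A.card ≤ 2 * (A.filter (fun X => i ∈ X)).card := by
  rcases le_total A.card (2 * (types A).card) with hsm | hbig
  · exact small A huc (by omega) hsm
  obtain ⟨i, hi⟩ := gold A huc (by omega) (by omega)
  refine ⟨i, ?_⟩
  have hn' : (16 : ℝ) ≤ (types A).card := by exact_mod_cast hn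
  have hmn' : 3 * (A.card : ℝ) ≤ 10 * (types A).card := by exact_mod_cast hmn
  have hbig' : 2 * ((types A).card : ℝ) ≤ A.card := by exact_mod_cast hbig
  obtain ⟨n, hnd⟩ : ∃ n : ℝ, n = (types A).card := ⟨_, rfl⟩
  obtain ⟨m, hmd⟩ : ∃ m : ℝ, m = A.card := ⟨_, rfl⟩
  obtain ⟨d, hdd⟩ : ∃ d : ℝ, d = (A.filter (fun X => i ∈ X)).card := ⟨_, rfl⟩
  rw [← hnd, ← hmd, ← hdd] at hi
  rw [← hnd] at hn'
  rw [← hnd, ← hmd] at hmn' hbig'
  suffices h : m ≤ 2 * d by
    rw [hmd, hdd] at h
    exact_mod_cast h
  obtain ⟨t, ht⟩ : ∃ t : ℝ, t = m - n := ⟨_, rfl⟩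
  rw [← ht] at hi
  have ht0 : 16 ≤ t := by linarith
  have h5 := sqrt5_ub
  have h5' := sqrt5_lb
  have hl2 := log_two_gt_d9
  have hm0 : 0 < m := by linarith
  have hRnn : 0 ≤ log (m / t) := by
    apply log_nonneg
    rw [le_div_iff₀ (by linarith)]
    linarith
  -- a bound for the error term from bounds for its numerator and denominator
  have hE : ∀ B l : ℝ, 0 < l → l ≤ log t → t * log (m / t) ≤ B →
      log (m / t) / log t * t ≤ B / l := by
    intro B l hl hlt hB
    have h1 : log (m / t) / log t * t = (t * log (m / t)) / log t := by ring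
    rw [h1]
    have h2 : 0 ≤ t * log (m / t) := mul_nonneg (by linarith) hRnn
    apply div_le_div₀ (h2.trans hB) hB hl hlt
  have hEnn : 0 ≤ log (m / t) / log t * t := by
    apply mul_nonneg (div_nonneg hRnn _) (by linarith)
    apply log_nonneg
    linarith
  have htan : ∀ a b : ℝ, 0 < a → log a ≤ b →
      t * log (m / t) ≤ m / a - (1 - b) * t := by
    intro a b ha hab
    have h1 := log_tangent (x := m / t) (a := a) (by positivity) ha
    have h3 : t * log (m / t) ≤ t * (b + (m / t / a - 1)) :=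
      mul_le_mul_of_nonneg_left (by linarith) (by linarith)
    have h4 : t * (b + (m / t / a - 1)) = m / a - (1 - b) * t := by
      field_simp
      ring
    linarith
  have hfin : ∀ e : ℝ, log (m / t) / log t * t ≤ e →
      m / 2 ≤ n - 1 + 38195 / 100000 * t - 61805 / 100000 * e → m ≤ 2 * d := by
    intro e he h
    have h1 : ((3 - √5) / 2 - (√5 - 1) / 2 * (log (m / t) / log t)) * t =
        (3 - √5) / 2 * t - (√5 - 1) / 2 * (log (m / t) / log t * t) := by ring
    rw [h1] at hi
    have h2 : 38195 / 100000 * t ≤ (3 - √5) / 2 * t :=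
      mul_le_mul_of_nonneg_right (by linarith) (by linarith)
    have h3 : (√5 - 1) / 2 * (log (m / t) / log t * t) ≤
        61805 / 100000 * (log (m / t) / log t * t) :=
      mul_le_mul_of_nonneg_right (by linarith) hEnn
    linarith
  have hl2' := log_two_lt_d9
  rcases le_total t (2 * n) with hA | hB
  · have hL : 27725 / 10000 ≤ log t := by
      have h1 : log (16 : ℝ) ≤ log t := log_le_log (by norm_num) ht0
      have h2 : log (16 : ℝ) = 4 * log 2 := by
        rw [show (16 : ℝ) = 2 ^ 4 by norm_num, log_pow]; norm_num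
      linarith
    have ha : log (1587 / 1000 : ℝ) ≤ 4621 / 10000 := by
      have h1 : log ((1587 / 1000 : ℝ) ^ 3) ≤ log (2 ^ 2) :=
        log_le_log (by norm_num) (by norm_num)
      rw [log_pow, log_pow] at h1
      push_cast at h1
      linarith
    have h1 := htan _ _ (by norm_num) ha
    have h2 := hE _ _ (by norm_num) hL h1
    refine hfin _ h2 ?_
    have h3 : (m / (1587 / 1000) - (1 - 4621 / 10000) * t) / (27725 / 10000) =
        (m * (1000 / 1587) - (5379 / 10000) * t) * (10000 / 27725) := by ring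
    rw [h3]
    have hmnt : m = n + t := by linarith
    rw [hmnt]
    linarith
  · have hL : 34655 / 10000 ≤ log t := by
      have h1 : log (32 : ℝ) ≤ log t := log_le_log (by norm_num) (by linarith)
      have h2 : log (32 : ℝ) = 5 * log 2 := by
        rw [show (32 : ℝ) = 2 ^ 5 by norm_num, log_pow]; norm_num
      linarith
    have ha : log (1414 / 1000 : ℝ) ≤ 3466 / 10000 := by
      have h1 : log ((1414 / 1000 : ℝ) ^ 2) ≤ log 2 :=
        log_le_log (by norm_num) (by norm_num)
      rw [log_pow] at h1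
      push_cast at h1
      linarith
    have h1 := htan _ _ (by norm_num) ha
    have h2 := hE _ _ (by norm_num) hL h1
    refine hfin _ h2 ?_
    have h3 : (m / (1414 / 1000) - (1 - 3466 / 10000) * t) / (34655 / 10000) =
        (m * (1000 / 1414) - (6534 / 10000) * t) * (10000 / 34655) := by ring
    rw [h3]
    have hmnt : m = n + t := by linarith
    rw [hmnt]
    linarith

end Pool.Agent.H634R3.UC
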