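import Mathlib
import Pool.Agent.H286R2.UC.Final

set_option autoImplicit false

/-!
# The entropy inequalities behind the constant 0.385, for subfamilies

`F` is a family of sets all of whose unions of two members lie in `G`.
-/

namespace Pool.Agent.H634R3.UC

open Real Finset Pool.Agent.H117R2 Pool.Agent.H117R2.UC Pool.Agent.H286R2.UC

variable {α : Type*} [DecidableEq α]

/-- the unions of two members of `F` lie in `G` -/
def UIn (F G : Finset (Finset α)) : Prop := ∀ X ∈ F, ∀ Y ∈ F, X ∪ Y ∈ G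

theorem C0' (F G : Finset (Finset α)) (hF : UIn F G) (hne : F.Nonempty) (l : List α)
    (hl : l.Nodup) (hs : Sep F l) :
    chainSum (G1 F) ∅ l ≤ (F.card : ℝ) * (log G.card - log F.card) := by
  have hc : (0 : ℝ) < F.card := by exact_mod_cast hne.card_pos
  have h1 : chainSum (G1 F) ∅ l =
      chainSum (fun S j => 2 * (M0 F j : ℝ) * Sg hb F S j - (Sg nu F S j) ^ 2) ∅ l / F.card -
        chainSum (Sg hb F) ∅ l :=
    U4aux.chainSum_sub_div _ _ _ _ _
  have h2 := chain_ineq F G l hl hF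
  have h3 := ent_le (U := G) (f := conv F F) (fun S _ => conv_nonneg F F S)
  rw [sum_conv G F F hF] at h3
  have h4 := chainSum_hb F ∅ l
  rw [HH_empty, HH_sep (Finset.subset_union_right) hs] at h4
  rw [h1, h4]
  have h5 : chainSum (fun S j => 2 * (M0 F j : ℝ) * Sg hb F S j - (Sg nu F S j) ^ 2) ∅ l /
      F.card ≤ (F.card : ℝ) * log G.card := by
    rw [div_le_iff₀ hc]
    calc _ ≤ _ := h2.trans h3
      _ = _ := by ring
  linarith

theorem PT_eq' {F : Finset (Finset α)} {T : Finset α} (Y : Finset α) :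
    PT F T Y = conv (cl F T Y) (cl F T Y) Y / ((F.card : ℝ) * ((cl F T Y).card : ℝ)) := by
  unfold PT
  have h1 : ∑ A ∈ F, (((cl F T A).filter (fun B => A ∪ B = Y)).card : ℝ) /
      ((cl F T A).card : ℝ) =
      ∑ A ∈ cl F T Y, (((cl F T Y).filter (fun B => A ∪ B = Y)).card : ℝ) /
      ((cl F T Y).card : ℝ) := by
    have hsub : cl F T Y ⊆ F := Finset.filter_subset _ _
    rw [← Finset.sum_subset hsub]
    · refine Finset.sum_congr rfl fun A hA => ?_
      rw [cl_eq hA]
    · intro A hA hA'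
      have : (cl F T A).filter (fun B => A ∪ B = Y) = ∅ := by
        rw [Finset.filter_eq_empty_iff]
        intro B hB hAB
        apply hA'
        rw [mem_cl] at hB ⊢
        refine ⟨hA, ?_⟩
        rw [← hAB, Finset.union_inter_distrib_right, hB.2, Finset.union_self]
      rw [this]
      simp
  rw [h1, ← Finset.sum_div, ← U5aux.conv_eq_sum, div_div]
  congr 1
  ring

theorem cl_union' {F G : Finset (Finset α)} (hF : UIn F G) {T A : Finset α} :
    ∀ X ∈ cl F T A, ∀ Y ∈ cl F T A, X ∪ Y ∈ cl G T A := by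
  intro X hX Y hY
  rw [mem_cl] at hX hY ⊢
  refine ⟨hF X hX.1 Y hY.1, ?_⟩
  rw [Finset.union_inter_distrib_right, hX.2, hY.2, Finset.union_self]

theorem sum_negMulLog' (C U : Finset (Finset α)) (hC : ∀ X ∈ C, ∀ Y ∈ C, X ∪ Y ∈ U)
    {N : ℝ} (hN : 0 < N) (hne : 0 < (C.card : ℝ)) :
    (∑ Y ∈ U, negMulLog (conv C C Y / (N * (C.card : ℝ)))) / (C.card : ℝ) =
      (ent U (conv C C) / (C.card : ℝ) ^ 2 + log N - log (C.card : ℝ)) / N := by
  have hK : 0 < N * (C.card : ℝ) := by positivity
  have h1 : ∑ Y ∈ U, negMulLog (conv C C Y / (N * (C.card : ℝ))) =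
      (∑ Y ∈ U, negMulLog (conv C C Y) + (∑ Y ∈ U, conv C C Y) * log (N * (C.card : ℝ))) /
        (N * (C.card : ℝ)) := by
    rw [Finset.sum_mul, ← Finset.sum_add_distrib, Finset.sum_div]
    exact Finset.sum_congr rfl fun Y _ => U5aux.negMulLog_div (conv_nonneg _ _ _) hK
  rw [h1]
  have h2 : ∑ Y ∈ U, negMulLog (conv C C Y) =
      ent U (conv C C) + negMulLog ((C.card : ℝ) * (C.card : ℝ)) := by
    unfold ent
    rw [sum_conv U C C hC]
    ring
  rw [h2, sum_conv U C C hC, negMulLog_mul, log_mul hN.ne' hne.ne']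
  unfold negMulLog
  field_simp
  ring

theorem sum_class' (F G : Finset (Finset α)) (T : Finset α) (f : Finset α → ℝ)
    (h0 : ∀ Y ∈ G, cl F T Y = ∅ → f Y = 0) :
    ∑ A ∈ F, (∑ B ∈ cl G T A, f B) / ((cl F T A).card : ℝ) = ∑ A ∈ G, f A := by
  have h1 : ∀ A ∈ F, (∑ B ∈ cl G T A, f B) / ((cl F T A).card : ℝ) =
      ∑ B ∈ G, if A ∩ T = B ∩ T then f B / ((cl F T B).card : ℝ) else 0 := by
    intro A _
    rw [Finset.sum_div, ← Finset.sum_filter]
    have h2 : cl G T A = G.filter (fun B => A ∩ T = B ∩ T) := by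
      ext B
      simp only [cl, Finset.mem_filter]
      exact ⟨fun h => ⟨h.1, h.2.symm⟩, fun h => ⟨h.1, h.2.symm⟩⟩
    rw [← h2]
    refine Finset.sum_congr rfl fun B hB => ?_
    have h3 : cl F T B = cl F T A := by
      unfold cl
      rw [(mem_cl.mp hB).2]
    rw [h3]
  rw [Finset.sum_congr rfl h1, Finset.sum_comm]
  refine Finset.sum_congr rfl fun B hB => ?_
  rw [← Finset.sum_filter, Finset.sum_const, nsmul_eq_mul]
  have h4 : F.filter (fun A => A ∩ T = B ∩ T) = cl F T B := rfl
  rw [h4]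
  rcases (cl F T B).eq_empty_or_nonempty with he | he
  · rw [he, h0 B hB he]
    simp
  · have h3 : ((cl F T B).card : ℝ) ≠ 0 := by
      have := he.card_pos
      positivity
    exact mul_div_cancel₀ _ h3

theorem ent_PT' (F G : Finset (Finset α)) (hF : UIn F G) (hne : F.Nonempty) (T : Finset α)
    (l : List α) (hl : l.Nodup) :
    chainSum (G2 F T) T l + (HH F (T ∪ l.toFinset) + (F.card : ℝ) * log F.card) ≤
      (F.card : ℝ) * ∑ Y ∈ G, negMulLog (PT F T Y) := by
  have hN : (0 : ℝ) < (F.card : ℝ) := by exact_mod_cast Finset.card_pos.mpr hne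
  -- the right-hand side
  have hR : (F.card : ℝ) * ∑ Y ∈ G, negMulLog (PT F T Y) =
      ∑ A ∈ F, ent (cl G T A) (conv (cl F T A) (cl F T A)) / ((cl F T A).card : ℝ) ^ 2 +
        (F.card : ℝ) * log F.card + HH F T := by
    rw [← sum_class' F G T (fun Y => negMulLog (PT F T Y)) (by
      intro Y _ he
      rw [PT_eq', he]
      simp)]
    have h1 : ∀ A ∈ F, (∑ B ∈ cl G T A, negMulLog (PT F T B)) / ((cl F T A).card : ℝ) =
        (ent (cl G T A) (conv (cl F T A) (cl F T A)) / ((cl F T A).card : ℝ) ^ 2 +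
          log (F.card : ℝ) - log ((cl F T A).card : ℝ)) / (F.card : ℝ) := by
      intro A hA
      have hpos : (0 : ℝ) < ((cl F T A).card : ℝ) := by exact_mod_cast cl_card_pos hA
      rw [← sum_negMulLog' (cl F T A) (cl G T A) (cl_union' hF) hN hpos]
      congr 1
      refine Finset.sum_congr rfl fun B hB => ?_
      have h3 : cl F T B = cl F T A := by
        unfold cl
        rw [(mem_cl.mp hB).2]
      rw [PT_eq', h3]
    rw [Finset.sum_congr rfl h1, ← Finset.sum_div, mul_div_cancel₀ _ hN.ne']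
    unfold HH
    rw [Finset.sum_sub_distrib, Finset.sum_add_distrib, Finset.sum_const, nsmul_eq_mul,
      Finset.sum_neg_distrib]
    ring
  -- the chain inequality in each class
  have hC : ∀ A ∈ F, chainSum (fun S j => 2 * xv F T j A * avT hb F T S j A -
      (avT nu F T S j A) ^ 2) T l ≤
      ent (cl G T A) (conv (cl F T A) (cl F T A)) / ((cl F T A).card : ℝ) ^ 2 := by
    intro A hA
    have hpos : (0 : ℝ) < ((cl F T A).card : ℝ) := by exact_mod_cast cl_card_pos hA
    have h1 := chain_ineq (cl F T A) (cl G T A) l hl (cl_union' hF)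
    rw [U5aux.chainSum_congr (U5aux.gain_eq hA) ∅ l, U5aux.chainSum_mul,
      U5aux.chainSum_union (fun S j => 2 * xv F T j A * avT hb F T S j A -
        (avT nu F T S j A) ^ 2) T ∅ l, Finset.union_empty] at h1
    rw [le_div_iff₀ (by positivity), mul_comm]
    exact h1
  have hsum := Finset.sum_le_sum hC
  rw [← U5aux.chainSum_sum] at hsum
  have hG : chainSum (fun S j => ∑ A ∈ F, (2 * xv F T j A * avT hb F T S j A -
      (avT nu F T S j A) ^ 2)) T l = chainSum (G2 F T) T l + chainSum (Sg hb F) T l := by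
    rw [← U5aux.chainSum_add]
    apply U5aux.chainSum_congr
    intro S j
    unfold G2
    ring
  rw [hG, chainSum_hb] at hsum
  rw [hR]
  linarith

/-- counting the pairs by their union -/
theorem fib' {F G : Finset (Finset α)} (hF : UIn F G) (T : Finset α) {A : Finset α} (hA : A ∈ F)
    (P : Finset α → Prop) [DecidablePred P] :
    ∑ Y ∈ G.filter P, ((((cl F T A).filter (fun B => A ∪ B = Y)).card : ℕ) : ℝ) =
      (((cl F T A).filter (fun B => P (A ∪ B))).card : ℝ) := by
  rw [← Nat.cast_sum]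
  congr 1
  have h1 := Finset.card_eq_sum_card_fiberwise (f := fun B => A ∪ B)
    (s := (cl F T A).filter (fun B => P (A ∪ B))) (t := G.filter P) (by
      intro B hB
      have hB' := Finset.mem_filter.1 (Finset.mem_coe.1 hB)
      exact Finset.mem_coe.2 (Finset.mem_filter.2 ⟨hF A hA B (U6aux.cl_sub hB'.1), hB'.2⟩))
  rw [h1]
  refine Finset.sum_congr rfl fun Y hY => ?_
  congr 1
  ext B
  simp only [Finset.mem_filter]
  constructor
  · rintro ⟨h2, h3⟩
    refine ⟨⟨h2, ?_⟩, h3⟩
    rw [h3]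
    exact (Finset.mem_filter.1 hY).2
  · rintro ⟨⟨h2, _⟩, h3⟩
    exact ⟨h2, h3⟩

theorem sum_filter_PT' (F G : Finset (Finset α)) (hF : UIn F G) (hne : F.Nonempty) (T : Finset α)
    (P : Finset α → Prop) [DecidablePred P] :
    (F.card : ℝ) * ∑ Y ∈ G.filter P, PT F T Y =
      ∑ A ∈ F, (((cl F T A).filter (fun B => P (A ∪ B))).card : ℝ) / ((cl F T A).card : ℝ) := by
  have hc : (F.card : ℝ) ≠ 0 := by
    have := hne.card_pos
    positivity
  unfold PT
  rw [← Finset.sum_div, mul_div_cancel₀ _ hc, Finset.sum_comm]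
  refine Finset.sum_congr rfl fun A hA => ?_
  rw [← Finset.sum_div, fib' hF T hA P]

theorem sum_PT' (F G : Finset (Finset α)) (hF : UIn F G) (hne : F.Nonempty) (T : Finset α) :
    ∑ Y ∈ G, PT F T Y = 1 := by
  have hc : (F.card : ℝ) ≠ 0 := by
    have := hne.card_pos
    positivity
  have h1 := sum_filter_PT' F G hF hne T (fun _ => True)
  simp only [Finset.filter_true] at h1
  have h2 : ∑ A ∈ F, ((cl F T A).card : ℝ) / ((cl F T A).card : ℝ) = F.card := by
    rw [Finset.sum_congr rfl (fun A hA => div_self (by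
      have := cl_card_pos (S := T) hA
      positivity : ((cl F T A).card : ℝ) ≠ 0))]
    simp
  rw [h2] at h1
  exact mul_left_cancel₀ hc (h1.trans (mul_one _).symm)

theorem PT_avoid' (F G : Finset (Finset α)) (hF : UIn F G) (hne : F.Nonempty) (T : Finset α)
    (j : α) :
    (F.card : ℝ) * ∑ Y ∈ G.filter (fun Y => j ∉ Y), PT F T Y = ∑ A ∈ F, xv F T j A ^ 2 := by
  rw [sum_filter_PT' F G hF hne T (fun Y => j ∉ Y)]
  have h1 : ∀ A ∈ F, (((cl F T A).filter (fun B => j ∉ A ∪ B)).card : ℝ) /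
      ((cl F T A).card : ℝ) = if j ∉ A then xv F T j A else 0 := by
    intro A _
    by_cases hj : j ∈ A
    · have h2 : (cl F T A).filter (fun B => j ∉ A ∪ B) = ∅ := by
        rw [Finset.filter_eq_empty_iff]
        intro B _ h
        exact h (Finset.mem_union_left _ hj)
      rw [h2, if_neg (not_not.2 hj)]
      simp
    · rw [if_pos hj]
      unfold xv M0
      congr 3
      ext B
      simp only [Finset.mem_filter, Finset.mem_union, not_or]
      exact ⟨fun h => ⟨h.1, h.2.2⟩, fun h => ⟨h.1, hj, h.2⟩⟩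
  rw [Finset.sum_congr rfl h1, ← sum_class F T]
  refine Finset.sum_congr rfl fun A _ => ?_
  have h3 : ∑ B ∈ cl F T A, (if j ∉ B then xv F T j B else 0) =
      (M0 (cl F T A) j : ℝ) * xv F T j A := by
    rw [← Finset.sum_filter]
    have h4 : ∀ B ∈ (cl F T A).filter (fun B => j ∉ B), xv F T j B = xv F T j A := by
      intro B hB
      unfold xv
      rw [cl_eq (Finset.mem_filter.1 hB).1]
    rw [Finset.sum_congr rfl h4, Finset.sum_const, nsmul_eq_mul]
    rfl
  rw [h3]
  unfold xv
  ring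

open U7aux in
theorem ST' (F G : Finset (Finset α)) (hF : UIn F G) (hne : F.Nonempty) (lJ lR : List α)
    (hl : (lJ ++ lR).Nodup) (hs : Sep F (lJ ++ lR)) {θ : ℝ} (hθ0 : 0 ≤ θ) (hθ1 : θ < 1) :
    ∑ T ∈ lJ.toFinset.powerset,
      (chainSum (G2 F T) T (lJ.filter (fun j => j ∉ T) ++ lR) +
        ∑ j ∈ lJ.toFinset \ T, ((F.card : ℝ) * log (1 - θ ^ 2) +
          log ((1 + θ) / (1 - θ)) * ∑ A ∈ F, xv F T j A * (1 - xv F T j A))) ≤
      2 ^ lJ.toFinset.card * ((F.card : ℝ) * (log G.card - log F.card)) := by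
  set J := lJ.toFinset with hJ
  have hc : (0 : ℝ) < F.card := by exact_mod_cast hne.card_pos
  have hGne : G.Nonempty := by
    obtain ⟨X, hX⟩ := hne
    exact ⟨_, hF X hX X hX⟩
  have hcG : (0 : ℝ) < G.card := by exact_mod_cast hGne.card_pos
  -- entropy
  have hA : ∀ T ∈ J.powerset, chainSum (G2 F T) T (lJ.filter (fun j => j ∉ T) ++ lR) +
      (F.card : ℝ) * log F.card ≤ (F.card : ℝ) * ∑ Y ∈ G, negMulLog (PT F T Y) := by
    intro T hT
    rw [Finset.mem_powerset] at hT
    have hnd : (lJ.filter (fun j => j ∉ T) ++ lR).Nodup := by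
      rw [List.nodup_append'] at hl ⊢
      refine ⟨hl.1.filter _, hl.2.1, ?_⟩
      intro a ha hb
      exact hl.2.2 (List.mem_of_mem_filter ha) hb
    have h1 := ent_PT' F G hF hne T _ hnd
    have h2 : HH F (T ∪ (lJ.filter (fun j => j ∉ T) ++ lR).toFinset) = 0 := by
      apply HH_sep (l := lJ ++ lR) _ hs
      intro j hj
      rw [List.mem_toFinset, List.mem_append] at hj
      rw [Finset.mem_union, List.mem_toFinset, List.mem_append, List.mem_filter]
      by_cases hjT : j ∈ T
      · exact Or.inl hjT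
      · right
        rcases hj with hj | hj
        · exact Or.inl ⟨hj, by simpa using hjT⟩
        · exact Or.inr hj
    rw [h2, zero_add] at h1
    exact h1
  -- Gibbs
  have hG : ∑ T ∈ J.powerset, ∑ Y ∈ G, (negMulLog (PT F T Y) + PT F T Y * log (q θ J T Y)) ≤
      2 ^ J.card * log G.card := by
    have h1 : ∀ T ∈ J.powerset, ∀ Y ∈ G,
        negMulLog (PT F T Y) + PT F T Y * log (q θ J T Y) ≤
          PT F T Y * log G.card + (q θ J T Y / G.card - PT F T Y) := fun T _ Y _ =>
      gibbs_pt (PT_nonneg F T Y) (q_pos hθ0 hθ1 J T Y) hcG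
    refine (Finset.sum_le_sum fun T hT => Finset.sum_le_sum (h1 T hT)).trans (le_of_eq ?_)
    have h2 : ∀ T ∈ J.powerset, ∑ Y ∈ G, (PT F T Y * log G.card +
        (q θ J T Y / G.card - PT F T Y)) = log G.card + ((∑ Y ∈ G, q θ J T Y) / G.card - 1) := by
      intro T _
      rw [Finset.sum_add_distrib, Finset.sum_sub_distrib, ← Finset.sum_mul, ← Finset.sum_div,
        sum_PT' F G hF hne T, one_mul]
    rw [Finset.sum_congr rfl h2, Finset.sum_add_distrib, Finset.sum_sub_distrib, ← Finset.sum_div,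
      Finset.sum_comm, Finset.sum_congr rfl (fun Y _ => sum_q θ J Y)]
    simp only [Finset.sum_const, Finset.card_powerset, nsmul_eq_mul]
    push_cast
    field_simp
    ring
  -- the linear part
  have hlin : ∀ T ∈ J.powerset, (F.card : ℝ) * ∑ Y ∈ G, PT F T Y * log (q θ J T Y) =
      ∑ j ∈ T, ((M0 F j : ℝ) * log (1 + θ) + ((F.card : ℝ) - M0 F j) * log (1 - θ)) +
      ∑ j ∈ J \ T, (((F.card : ℝ) - ∑ A ∈ F, xv F T j A ^ 2) * log (1 + θ) +
        (∑ A ∈ F, xv F T j A ^ 2) * log (1 - θ)) := by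
    intro T hT
    have h1 : ∀ Y ∈ G, PT F T Y * log (q θ J T Y) =
        ∑ j ∈ T, PT F T Y * (if j ∉ Y then log (1 + θ) else log (1 - θ)) +
        ∑ j ∈ J \ T, PT F T Y * (if j ∉ Y then log (1 - θ) else log (1 + θ)) := by
      intro Y _
      rw [log_q hθ0 hθ1, mul_add, Finset.mul_sum, Finset.mul_sum]
      congr 1
      apply Finset.sum_congr rfl
      intro j _
      by_cases hj : j ∈ Y
      · rw [if_pos hj, if_neg (not_not.2 hj)]
      · rw [if_neg hj, if_pos hj]
    rw [Finset.sum_congr rfl h1, Finset.sum_add_distrib, Finset.sum_comm (s := G) (t := T),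
      Finset.sum_comm (s := G) (t := J \ T), mul_add, Finset.mul_sum, Finset.mul_sum]
    have hav : ∀ j, ∑ Y ∈ G.filter (fun Y => j ∉ Y), PT F T Y =
        (∑ A ∈ F, xv F T j A ^ 2) / F.card := by
      intro j
      rw [eq_div_iff hc.ne', mul_comm]
      exact PT_avoid' F G hF hne T j
    congr 1
    · apply Finset.sum_congr rfl
      intro j hj
      rw [sum_two G (PT F T) (sum_PT' F G hF hne T) j _ _ _ (hav j)]
      have h2 : ∑ A ∈ F, xv F T j A ^ 2 = (M0 F j : ℝ) := by
        rw [← sum_xv F T j]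
        apply Finset.sum_congr rfl
        intro A _
        exact xv_sq_of_mem hj A
      rw [h2]
      field_simp
    · apply Finset.sum_congr rfl
      intro j hj
      rw [sum_two G (PT F T) (sum_PT' F G hF hne T) j _ _ _ (hav j)]
      field_simp
      ring
  have hsymm := U7aux.sum_compl J
    (fun j => (M0 F j : ℝ) * log (1 + θ) + ((F.card : ℝ) - M0 F j) * log (1 - θ))
  have hlin2 : (F.card : ℝ) * ∑ T ∈ J.powerset, ∑ Y ∈ G, PT F T Y * log (q θ J T Y) =
      ∑ T ∈ J.powerset, ∑ j ∈ J \ T, ((F.card : ℝ) * log (1 - θ ^ 2) +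
          log ((1 + θ) / (1 - θ)) * ∑ A ∈ F, xv F T j A * (1 - xv F T j A)) := by
    rw [Finset.mul_sum, Finset.sum_congr rfl hlin, Finset.sum_add_distrib, hsymm,
      ← Finset.sum_add_distrib]
    apply Finset.sum_congr rfl
    intro T _
    rw [← Finset.sum_add_distrib]
    apply Finset.sum_congr rfl
    intro j _
    have h1 : ∑ A ∈ F, xv F T j A * (1 - xv F T j A) =
        (M0 F j : ℝ) - ∑ A ∈ F, xv F T j A ^ 2 := by
      rw [← sum_xv F T j, ← Finset.sum_sub_distrib]
      apply Finset.sum_congr rfl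
      intro A _
      ring
    have h2 : log (1 - θ ^ 2) = log (1 + θ) + log (1 - θ) := by
      rw [← Real.log_mul (by linarith) (by linarith)]
      congr 1
      ring
    have h3 : log ((1 + θ) / (1 - θ)) = log (1 + θ) - log (1 - θ) := by
      rw [Real.log_div (by linarith) (by linarith)]
    rw [h1, h2, h3]
    ring
  -- conclusion
  rw [Finset.sum_add_distrib, ← hlin2]
  have hA2 := Finset.sum_le_sum hA
  rw [Finset.sum_add_distrib, Finset.sum_const, Finset.card_powerset,
    nsmul_eq_mul, ← Finset.mul_sum] at hA2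
  push_cast at hA2
  have hG2 := mul_le_mul_of_nonneg_left hG hc.le
  rw [Finset.sum_congr rfl (fun T _ => Finset.sum_add_distrib), Finset.sum_add_distrib,
    mul_add] at hG2
  have h5 : (F.card : ℝ) * (2 ^ J.card * log G.card) = 2 ^ J.card * ((F.card : ℝ) * log G.card) := by
    ring
  rw [h5] at hG2
  have h6 : (2 : ℝ) ^ J.card * ((F.card : ℝ) * (log G.card - log F.card)) =
      2 ^ J.card * ((F.card : ℝ) * log G.card) - 2 ^ J.card * ((F.card : ℝ) * log F.card) := by
    ring
  rw [h6]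
  linarith

end Pool.Agent.H634R3.UC
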