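import Mathlib
import Pool.Agent.H634R3.UC.Sub
import Pool.Agent.H634R3.UC.Asm

set_option autoImplicit false

/-!
# The constant 0.385 for large subfamilies
-/

namespace Pool.Agent.H634R3.UC

open Real Finset Pool.Agent.H117R2 Pool.Agent.H117R2.UC Pool.Agent.H286R2.UC

variable {α : Type*} [DecidableEq α]

theorem hb_le {x : ℝ} (h0 : 0 ≤ x) (h1 : x ≤ 1) : hb x ≤ log 2 := by
  have := Real.binEntropy_le_log_two (p := x)
  have e : hb x = Real.binEntropy x := by
    unfold hb Real.binEntropy negMulLog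
    rw [log_inv, log_inv]
    ring
  rw [e]
  exact this

theorem hb_nn {x : ℝ} (h0 : 0 ≤ x) (h1 : x ≤ 1) : 0 ≤ hb x := by
  unfold hb
  exact add_nonneg (negMulLog_nonneg h0 h1) (negMulLog_nonneg (by linarith) (by linarith))

theorem Sg_le (F : Finset (Finset α)) (S : Finset α) (j : α) :
    Sg hb F S j ≤ F.card * log 2 := by
  unfold Sg
  calc ∑ A ∈ F, hb (xv F S j A) ≤ ∑ _A ∈ F, log 2 :=
        sum_le_sum fun A _ => hb_le (xv_nonneg _ _ _ _) (xv_le_one _ _ _ _)
    _ = F.card * log 2 := by rw [sum_const, nsmul_eq_mul]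

theorem HH_lower (F : Finset (Finset α)) (l : List α) (hl : l.Nodup) :
    HH F l.toFinset ≤ F.card * l.toFinset.card * log 2 - F.card * log F.card := by
  have h1 := chainSum_hb F ∅ l
  rw [empty_union, HH_empty] at h1
  have h2 : chainSum (Sg hb F) ∅ l ≤ chainSum (fun _ _ => (F.card : ℝ) * log 2) ∅ l := by
    apply chainSum_le
    intro l1 j l2 _
    exact Sg_le F _ j
  rw [chainSum_const _ _ _ hl, sum_const, nsmul_eq_mul] at h2
  rw [h1] at h2
  have : (F.card : ℝ) * l.toFinset.card * log 2 = l.toFinset.card * (F.card * log 2) := by ring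
  rw [this]
  linarith

/-- A large family `F` all of whose unions lie in a family at most twice as large has an element
of frequency more than `0.385`. -/
theorem sub385 (F G : Finset (Finset α)) (hF : UIn F G) (hcard : G.card ≤ 2 * F.card)
    (hlarge : 16000 ≤ log (F.card : ℝ)) :
    ∃ x : α, 385 / 1000 * (F.card : ℝ) ≤ (F.filter (fun S => x ∈ S)).card := by
  by_contra hcon
  push Not at hcon
  have hn : (0 : ℝ) < F.card := by
    by_contra h
    have h0 : (F.card : ℝ) = 0 := le_antisymm (not_lt.mp h) (by positivity)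
    rw [h0, log_zero] at hlarge
    norm_num at hlarge
  have hFne : F.Nonempty := by
    rw [← card_pos]
    exact_mod_cast hn
  have hM : ∀ x, 615 / 1000 * (F.card : ℝ) ≤ M0 F x := by
    intro x
    have h1 := hcon x
    have h2 := M0_add F x
    linarith
  have hGne : G.Nonempty := by
    obtain ⟨X, hX⟩ := hFne
    exact ⟨_, hF X hX X hX⟩
  have hcG : (0 : ℝ) < G.card := by exact_mod_cast hGne.card_pos
  obtain ⟨δ, hδ⟩ : ∃ δ : ℝ, δ = log (G.card : ℝ) - log (F.card : ℝ) := ⟨_, rfl⟩
  have hδ2 : δ ≤ 6932 / 10000 := by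
    have h1 : log (G.card : ℝ) ≤ log 2 + log (F.card : ℝ) := by
      rw [← log_mul (by norm_num) hn.ne']
      apply log_le_log hcG
      exact_mod_cast hcard
    have := log_two_lt_d9
    rw [hδ]
    linarith
  -- ground set
  obtain ⟨U, hU⟩ : ∃ U : Finset α, U = F.biUnion id := ⟨_, rfl⟩
  obtain ⟨V, hV⟩ : ∃ V : Finset α, V = U.filter (fun j => (M0 F j : ℝ) ≤ 62 / 100 * F.card) :=
    ⟨_, rfl⟩
  obtain ⟨J, hJV, hJ1, hJ2⟩ := exists_J F V (fun j => 1 / 2 * Sg hb F ∅ j)
  have hVU : V ⊆ U := by rw [hV]; exact filter_subset _ _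
  have hJU : J ⊆ U := hJV.trans hVU
  have hJm : ∀ j ∈ J, (M0 F j : ℝ) ≤ 62 / 100 * F.card := by
    intro j hj
    have := hJV hj
    rw [hV, mem_filter] at this
    exact this.2
  obtain ⟨lJ, hlJ⟩ : ∃ lJ : List α, lJ = J.toList := ⟨_, rfl⟩
  obtain ⟨lR, hlR⟩ : ∃ lR : List α, lR = (U \ J).toList := ⟨_, rfl⟩
  have hlJn : lJ.Nodup := hlJ ▸ nodup_toList _
  have hlRn : lR.Nodup := hlR ▸ nodup_toList _
  have hlJf : lJ.toFinset = J := by rw [hlJ]; exact toList_toFinset J
  have hlRf : lR.toFinset = U \ J := by rw [hlR]; exact toList_toFinset _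
  have hmemJ : ∀ j, j ∈ lJ ↔ j ∈ J := by intro j; rw [hlJ]; exact mem_toList
  have hmemR : ∀ j, j ∈ lR ↔ j ∈ U \ J := by intro j; rw [hlR]; exact mem_toList
  have hdisj : List.Disjoint lJ lR := by
    intro j h1 h2
    rw [hmemJ] at h1
    rw [hmemR, mem_sdiff] at h2
    exact h2.2 h1
  have hnodup : (lJ ++ lR).Nodup := List.nodup_append'.mpr ⟨hlJn, hlRn, hdisj⟩
  have hsepU : ∀ l : List α, (∀ j ∈ U, j ∈ l) → Sep F l := by
    intro l hl X hX Y hY h
    ext g
    by_cases hg : g ∈ U
    · exact h g (hl g hg)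
    · have h1 : g ∉ X := fun h' => hg (by rw [hU]; exact mem_biUnion.mpr ⟨X, hX, h'⟩)
      have h2 : g ∉ Y := fun h' => hg (by rw [hU]; exact mem_biUnion.mpr ⟨Y, hY, h'⟩)
      exact ⟨fun h => absurd h h1, fun h => absurd h h2⟩
  have hsep : Sep F (lJ ++ lR) := by
    apply hsepU
    intro j hj
    rw [List.mem_append, hmemJ, hmemR, mem_sdiff]
    by_cases h : j ∈ J
    · exact Or.inl h
    · exact Or.inr ⟨hj, h⟩
  have hST := ST' F G hF hFne lJ lR hnodup hsep (θ := 1 / 5) (by norm_num) (by norm_num)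
  rw [show (1 : ℝ) - (1 / 5) ^ 2 = 24 / 25 by norm_num,
    show (1 + (1 / 5 : ℝ)) / (1 - 1 / 5) = 3 / 2 by norm_num, hlJf, ← hδ] at hST
  -- the loss term
  obtain ⟨b, hb'⟩ : ∃ b : α → ℝ, b = fun j =>
    max 0 (1 - 809 / 500 * ((M0 F j : ℝ) / F.card)) * (2 / 3) * F.card := ⟨_, rfl⟩
  obtain ⟨D, hD⟩ : ∃ D : Finset α → α → ℝ, D = fun T j => (F.card : ℝ) * log (24 / 25) +
          log (3 / 2) * ∑ A ∈ F, xv F T j A * (1 - xv F T j A) := ⟨_, rfl⟩
  have key : ∀ T ∈ J.powerset, -(∑ j ∈ T, b j) + ∑ j ∈ J \ T, b j +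
      (1 / 10000 * (F.card : ℝ) * (J \ T).card + 1 / 1000 * chainSum (Sg hb F) J lR) ≤
      3 / 20 * (chainSum (G2 F T) T (lJ.filter (fun j => j ∉ T) ++ lR) + ∑ j ∈ J \ T, D T j) +
        F.card * δ := by
    intro T hT
    have hTJ : T ⊆ J := mem_powerset.mp hT
    have hf1 : (lJ.filter (fun j => j ∈ T)).toFinset = T := by
      ext j
      simp only [List.mem_toFinset, List.mem_filter, decide_eq_true_eq, hmemJ]
      exact ⟨fun h => h.2, fun h => ⟨hTJ h, h⟩⟩
    have hf2 : (lJ.filter (fun j => j ∉ T)).toFinset = J \ T := by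
      ext j
      simp only [List.mem_toFinset, List.mem_filter, decide_eq_true_eq, hmemJ, mem_sdiff]
    have hn1 : (lJ.filter (fun j => j ∈ T)).Nodup := hlJn.filter _
    have hn2' : (lJ.filter (fun j => j ∉ T)).Nodup := hlJn.filter _
    -- independent coupling
    have hC := C0' F G hF hFne (lJ.filter (fun j => j ∈ T) ++ (lJ.filter (fun j => j ∉ T) ++ lR))
      (by
        rw [List.nodup_append']
        refine ⟨hn1, ?_, ?_⟩
        · rw [List.nodup_append']
          refine ⟨hn2', hlRn, ?_⟩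
          intro j h1 h2
          exact hdisj (List.mem_of_mem_filter h1) h2
        · intro j h1 h2
          rw [List.mem_filter, decide_eq_true_eq] at h1
          rw [List.mem_append, List.mem_filter, decide_eq_true_eq] at h2
          rcases h2 with h2 | h2
          · exact h2.2 h1.2
          · exact hdisj h1.1 h2)
      (by
        apply hsepU
        intro j hj
        simp only [List.mem_append, List.mem_filter, decide_eq_true_eq, hmemJ, hmemR, mem_sdiff]
        by_cases h : j ∈ J
        · by_cases h' : j ∈ T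
          · exact Or.inl ⟨h, h'⟩
          · exact Or.inr (Or.inl ⟨h, h'⟩)
        · exact Or.inr (Or.inr ⟨hj, h⟩))
    rw [chainSum_append, chainSum_append, hf1, empty_union, hf2,
      union_sdiff_of_subset hTJ, ← hδ] at hC
    rw [chainSum_append, hf2, union_sdiff_of_subset hTJ]
    -- elements of `T`
    have h1 : -(∑ j ∈ T, b j) ≤ chainSum (G1 F) ∅ (lJ.filter (fun j => j ∈ T)) := by
      have e : -(∑ j ∈ T, b j) = chainSum (fun _ j => -(b j)) ∅ (lJ.filter (fun j => j ∈ T)) := by
        rw [chainSum_const _ _ _ hn1, hf1, sum_neg_distrib]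
      rw [e]
      apply chainSum_le
      intro l1 j l2 hl
      have hj : j ∈ lJ.filter (fun j => j ∈ T) := by rw [hl]; simp
      rw [List.mem_filter, decide_eq_true_eq, hmemJ] at hj
      rw [hb']
      exact G1_T F hFne _ j (hM j) (hJm j hj.1)
    -- elements of `J \ T`
    have h2 : ∑ j ∈ J \ T, (1 / 10000 * (F.card : ℝ) + b j - 3 / 20 * D T j) ≤
        chainSum (fun S j => G1 F S j + 3 / 20 * G2 F T S j) T (lJ.filter (fun j => j ∉ T)) := by
      have e : ∑ j ∈ J \ T, (1 / 10000 * (F.card : ℝ) + b j - 3 / 20 * D T j) =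
          chainSum (fun _ j => 1 / 10000 * (F.card : ℝ) + b j - 3 / 20 * D T j) T
            (lJ.filter (fun j => j ∉ T)) := by
        rw [chainSum_const _ _ _ hn2', hf2]
      rw [e]
      apply chainSum_le
      intro l1 j l2 hl
      have hj : j ∈ lJ.filter (fun j => j ∉ T) := by rw [hl]; simp
      rw [List.mem_filter, decide_eq_true_eq, hmemJ] at hj
      rw [hb', hD]
      refine G12_J F hFne subset_union_left j (hM j) (hJm j hj.1) ?_
      apply hJ1 j hj.1
      intro k hk
      rw [mem_erase]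
      rw [mem_union, List.mem_toFinset] at hk
      rcases hk with hk | hk
      · exact ⟨fun h => hj.2 (h ▸ hk), hTJ hk⟩
      · constructor
        · rintro rfl
          have := hn2'
          rw [hl, List.nodup_append'] at this
          exact this.2.2 hk (by simp)
        · have hk' : k ∈ lJ.filter (fun j => j ∉ T) := by rw [hl]; simp [hk]
          rw [List.mem_filter, hmemJ] at hk'
          exact hk'.1
    -- elements outside `J`
    have h3 : 1 / 1000 * chainSum (Sg hb F) J lR ≤
        chainSum (fun S j => G1 F S j + 3 / 20 * G2 F T S j) J lR := by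
      rw [← chainSum_mul]
      apply chainSum_le
      intro l1 j l2 hl
      have hj : j ∈ lR := by rw [hl]; simp
      rw [hmemR, mem_sdiff] at hj
      refine G12_R F hFne (hTJ.trans subset_union_left) j (hM j) ?_
      intro hm
      apply hJ2 j _ _ subset_union_left
      rw [mem_sdiff, hV, mem_filter]
      exact ⟨⟨hj.1, hm⟩, hj.2⟩
    rw [chainSum_add, chainSum_mul] at h2 h3
    have e4 : ∑ j ∈ J \ T, (1 / 10000 * (F.card : ℝ) + b j - 3 / 20 * D T j) =
        1 / 10000 * (F.card : ℝ) * (J \ T).card + ∑ j ∈ J \ T, b j -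
          3 / 20 * ∑ j ∈ J \ T, D T j := by
      rw [sum_sub_distrib, sum_add_distrib, sum_const, nsmul_eq_mul, ← mul_sum]
      ring
    rw [e4] at h2
    linarith
  have htot := sum_le_sum key
  rw [sum_add_distrib (f := fun T => 3 / 20 *
    (chainSum (G2 F T) T (lJ.filter (fun j => j ∉ T) ++ lR) + ∑ j ∈ J \ T, D T j)),
    ← mul_sum, sum_const, card_powerset, nsmul_eq_mul] at htot
  push_cast at htot
  have hST' : ∑ T ∈ J.powerset, (chainSum (G2 F T) T (lJ.filter (fun j => j ∉ T) ++ lR) +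
      ∑ j ∈ J \ T, D T j) ≤ 2 ^ J.card * ((F.card : ℝ) * δ) := by
    rw [hD]; exact hST
  rw [sum_add_distrib, sum_add_distrib, sum_neg_distrib, H286R2.UC.sum_compl J b,
    sum_add_distrib, sum_const, card_powerset, nsmul_eq_mul, ← mul_sum] at htot
  push_cast at htot
  -- the sum of the sizes of the complements
  have hcomp : ∑ T ∈ J.powerset, ((J \ T).card : ℝ) = 2 ^ J.card * (J.card : ℝ) / 2 := by
    have h1 := H286R2.UC.sum_compl J (fun _ => (1 : ℝ))
    simp only [sum_const, nsmul_eq_mul, mul_one] at h1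
    have h2 : ∑ T ∈ J.powerset, ((T.card : ℝ) + ((J \ T).card : ℝ)) = 2 ^ J.card * (J.card : ℝ) := by
      have h3 : ∀ T ∈ J.powerset, ((T.card : ℝ) + ((J \ T).card : ℝ)) = J.card := by
        intro T hT
        have := card_sdiff_add_card_eq_card (mem_powerset.mp hT)
        rw [add_comm]
        exact_mod_cast this
      rw [sum_congr rfl h3, sum_const, card_powerset, nsmul_eq_mul]
      push_cast
      ring
    rw [sum_add_distrib, h1] at h2
    linarith
  rw [hcomp] at htot
  have hpow : (0 : ℝ) < 2 ^ J.card := by positivity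
  -- the entropy of the rest
  have hcs : chainSum (Sg hb F) J lR = - HH F J := by
    rw [chainSum_hb, HH_sep (l := lJ ++ lR) (by
      rw [List.toFinset_append, hlJf, hlRf]) hsep]
    ring
  have hE1 : 0 ≤ - HH F J := by
    rw [← hcs]
    have : chainSum (fun _ _ => (0 : ℝ)) J lR ≤ chainSum (Sg hb F) J lR := by
      apply chainSum_le
      intro l1 j l2 _
      apply sum_nonneg
      intro A _
      exact hb_nn (xv_nonneg _ _ _ _) (xv_le_one _ _ _ _)
    rw [chainSum_const _ _ _ hlRn] at this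
    simpa using this
  have hE2 : (F.card : ℝ) * log F.card - F.card * J.card * log 2 ≤ - HH F J := by
    have := HH_lower F lJ hlJn
    rw [hlJf] at this
    linarith
  rw [hcs] at htot
  have h7 : 2 ^ J.card * (1 / 20000 * ((F.card : ℝ) * J.card) + 1 / 1000 * (- HH F J)) ≤
      (2 : ℝ) ^ J.card * (23 / 20 * (F.card * δ)) := by
    linarith
  have h8 := le_of_mul_le_mul_left h7 hpow
  have h9 : (F.card : ℝ) * (1 / 20000 * log F.card) ≤
      1 / 20000 * ((F.card : ℝ) * J.card) + 1 / 1000 * (- HH F J) := by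
    have hl2 := log_two_lt_d9
    rcases le_total (J.card : ℝ) (log F.card) with h | h
    · have h10 : (F.card : ℝ) * J.card * log 2 ≤ F.card * log F.card * (6932 / 10000) := by
        have h11 : (F.card : ℝ) * J.card ≤ F.card * log F.card :=
          mul_le_mul_of_nonneg_left h hn.le
        have h12 : (0 : ℝ) ≤ F.card * J.card := by positivity
        nlinarith
      have h13 : (0 : ℝ) ≤ F.card * J.card := by positivity
      have h14 : (0 : ℝ) ≤ F.card * log F.card := by
        apply mul_nonneg hn.le; linarith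
      nlinarith
    · have h10 : (F.card : ℝ) * log F.card ≤ F.card * J.card :=
        mul_le_mul_of_nonneg_left h hn.le
      nlinarith
  have h15 : (F.card : ℝ) * (1 / 20000 * log F.card) ≤ F.card * (23 / 20 * δ) := by
    have := h9.trans h8
    linarith
  have h16 := le_of_mul_le_mul_left h15 hn
  linarith

/-- `n` types, `m` members, `2 n ≤ m`, `m - n ≥ e^16000`. -/
theorem main385 (A : Finset (Finset ℕ)) (huc : ∀ X ∈ A, ∀ Y ∈ A, X ∪ Y ∈ A)
    (hn : 1 ≤ (types A).card) (hmn : 2 * (types A).card ≤ A.card)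
    (hlarge : exp 16000 ≤ (A.card : ℝ) - (types A).card) :
    ∃ i : ℕ, ((types A).card : ℝ) - 1 + 385 / 1000 * ((A.card : ℝ) - (types A).card) ≤
      ((A.filter (fun X => i ∈ X)).card : ℝ) := by
  apply assemble (by norm_num) A huc hn
  intro N hNA hNcard
  have hNr : (N.card : ℝ) = (A.card : ℝ) - (types A).card := by
    rw [eq_sub_iff_add_eq]
    exact_mod_cast hNcard
  have hpos : (0 : ℝ) < N.card := by
    rw [hNr]
    exact (exp_pos _).trans_le hlarge
  obtain ⟨x, hx⟩ := sub385 N A (fun X hX Y hY => huc X (hNA hX) Y (hNA hY)) (by omega) (by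
    rw [hNr, le_log_iff_exp_le]
    · exact hlarge
    · rw [← hNr]; exact hpos)
  refine ⟨x, ?_, hx⟩
  have h1 : 0 < (N.filter (fun X => x ∈ X)).card := by
    have h2 : (0 : ℝ) < ((N.filter (fun X => x ∈ X)).card : ℝ) :=
      lt_of_lt_of_le (by positivity) hx
    exact_mod_cast h2
  obtain ⟨S, hS⟩ := card_pos.mp h1
  rw [mem_filter] at hS
  rw [mem_sup]
  exact ⟨S, hNA hS.1, hS.2⟩

end Pool.Agent.H634R3.UC
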